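import Pool.Agent.Q45.ML.Units

/-!
# The Stark-Tate conjecture: units with abelian square roots from smoothed sums over primes

Notation of the problem: `K` real quadratic, `H` the ray class field of modulus `𝔪∞₂`, `G` the ray class group,
`Art : G ≅ Gal(H/K)`, `φ v ∈ G` the class of a prime `v ∤ 𝔪`, `τ` the fixed real embedding of `H`, `L χ` the
`L`-functions, `ζ(s, A) = |G|⁻¹ ∑_χ χ(A)⁻¹ L(s, χ)` the partial zeta functions. For `γ > π/2` let

`S_χ(T) = ∑_{v ∤ 𝔪} ∑_{k ≥ 1} (χ(v)^k/k) e^{iγ k log N(v)/T}/Γ(1 + k log N(v)/T)`,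
`Z_A(T) = |G|⁻¹ ∑_χ χ(A)⁻¹ T e^{S_χ(T)} e^{-Λ}`.

Let `𝒰` be the set of the vectors `(τ(ε_A))_A` for all families of units of `H` with `Art(B)(ε_A) = ε_{AB}`,
`|g(ε_A)| = 1` for the embeddings `g` above `∞₂`, and `H(√ε_A)/K` abelian for all `A`. The assertion of Q1 for `(K, 𝔪)`
holds if and only if `(exp(-2 Z_A(T)))_A` approaches `𝒰` along one sequence; and then the vector of the units is, for all
large `T`, the only element of `𝒰` in a fixed neighbourhood of `(exp(-2 Z_A(T)))_A`, at distance `O(1/T)`.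
-/

set_option autoImplicit false

namespace Pool.Agent.Results.MP_1ef7cf_nt.NearestAbelianFamily

open Filter Topology Asymptotics NumberField IsDedekindDomain Pool.Agent.Q45.ML

/-- for every square root `y` of `x` the field `H(y)` is abelian over `K` -/
def AbelianSqrt (K : Type) {H : Type} [Field K] [Field H] [Algebra K H] (x : H) : Prop :=
  ∀ y : AlgebraicClosure H, y ^ 2 = algebraMap H (AlgebraicClosure H) x →
    IsAbelianGalois K (IntermediateField.adjoin H {y})

/-- `x = (τ(ε_A))_A` for units `ε A` of the ring of integers of `H` with `Art(B)(ε A) = ε (A B)`, `|g(ε A)| = 1` for all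
embeddings `g` of `H` which differ from `τ` on `K`, and `H(√(ε A))` abelian over `K` -/
def IsStarkTateFamily {K H : Type} [Field K] [NumberField K] [Field H] [NumberField H] [Algebra K H]
    {G : Type} [CommGroup G] (Art : G ≃* (H ≃ₐ[K] H)) (τ : H →+* ℂ) (x : G → ℂ) : Prop :=
  ∃ ε : G → H, (∀ A, ε A ≠ 0 ∧ IsIntegral ℤ (ε A) ∧ IsIntegral ℤ (ε A)⁻¹) ∧ (∀ A, τ (ε A) = x A) ∧
    (∀ A B, Art B (ε A) = ε (A * B)) ∧
    (∀ A (g : H →+* ℂ), g.comp (algebraMap K H) ≠ τ.comp (algebraMap K H) → ‖g (ε A)‖ = 1) ∧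
    ∀ A, AbelianSqrt K (ε A)

theorem isolated {V : Type} [NormedAddCommGroup V] {A : Set V}
    (hA : ∀ r : ℝ, (A ∩ Metric.closedBall 0 r).Finite) (x : V) :
    ∃ δ > 0, ∀ y ∈ A, dist x y ≤ δ → y = x := by
  have hfin : ((A ∩ Metric.closedBall 0 (‖x‖ + 1)) \ {x}).Finite :=
    (hA (‖x‖ + 1)).subset Set.sdiff_subset
  have hx : x ∈ ((A ∩ Metric.closedBall 0 (‖x‖ + 1)) \ {x})ᶜ := fun h => h.2 rfl
  obtain ⟨ε, hε, hball⟩ := Metric.isOpen_iff.1 hfin.isClosed.isOpen_compl x hx
  refine ⟨min (ε / 2) 1, lt_min (by linarith) one_pos, fun y hy hd => ?_⟩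
  by_contra hne
  refine hball (a := y) ?_ ⟨⟨hy, ?_⟩, hne⟩
  · rw [Metric.mem_ball, dist_comm]
    have := hd.trans (min_le_left _ _)
    linarith
  · rw [Metric.mem_closedBall, dist_zero_right]
    have h1 : dist x y ≤ 1 := hd.trans (min_le_right _ _)
    have h2 : ‖y‖ ≤ ‖x‖ + ‖y - x‖ := by
      have := norm_add_le x (y - x)
      simpa using this
    rw [dist_comm, dist_eq_norm] at h1
    linarith

theorem trivial_family {K H : Type} [Field K] [NumberField K] [Field H] [NumberField H] [Algebra K H]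
    [IsGalois K H] {G : Type} [CommGroup G] (Art : G ≃* (H ≃ₐ[K] H)) (τ : H →+* ℂ) :
    IsStarkTateFamily Art τ (fun _ => 1) := by
  have hab : IsAbelianGalois K H :=
    { is_comm := ⟨fun a b => by
        obtain ⟨x, rfl⟩ := Art.surjective a
        obtain ⟨y, rfl⟩ := Art.surjective b
        rw [← map_mul, ← map_mul, mul_comm]⟩ }
  refine ⟨fun _ => 1, fun _ => ⟨one_ne_zero, isIntegral_one, by rw [inv_one]; exact isIntegral_one⟩,
    fun _ => map_one _, fun _ _ => map_one _, fun _ _ _ => by rw [map_one, norm_one], ?_⟩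
  intro _ y hy
  rw [map_one] at hy
  have hbot : IntermediateField.adjoin H {y} = ⊥ := by
    rw [IntermediateField.adjoin_simple_eq_bot_iff]
    rcases (mul_self_eq_one_iff (a := y)).1 (by rw [← pow_two]; exact hy) with h | h
    · rw [h]; exact one_mem _
    · rw [h]; exact neg_mem (one_mem _)
  rw [hbot]
  exact IsAbelianGalois.of_algHom
    (((IntermediateField.botEquiv H (AlgebraicClosure H)).toAlgHom).restrictScalars K)

theorem result (K H : Type) [Field K] [NumberField K] [Field H] [NumberField H] [Algebra K H]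
    [IsGalois K H] {G : Type} [CommGroup G] [Fintype G] [Fintype (G →* ℂˣ)]
    (Art : G ≃* (H ≃ₐ[K] H)) (τ : H →+* ℂ) (Sf : Finset (HeightOneSpectrum (𝓞 K)))
    (φ : HeightOneSpectrum (𝓞 K) → G) (L : (G →* ℂˣ) → ℂ → ℂ) (hL : IsFamily Sf φ L)
    {γ : ℝ} (hγ : Real.pi / 2 < γ) :
    List.TFAE [IsStarkTateFamily Art τ (fun A => Complex.exp (-2 * deriv (partialZeta L A) 0)),
      Tendsto (fun T : ℝ => Metric.infDist (fun A => Complex.exp (-2 * partialSum Sf φ γ A T))
        {x : G → ℂ | IsStarkTateFamily Art τ x}) atTop (𝓝 0),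
      ∃ t : ℕ → ℝ, Tendsto t atTop atTop ∧
        Tendsto (fun i => Metric.infDist (fun A => Complex.exp (-2 * partialSum Sf φ γ A (t i)))
          {x : G → ℂ | IsStarkTateFamily Art τ x}) atTop (𝓝 0)] ∧
    (∀ A, (fun T : ℝ => Complex.exp (-2 * partialSum Sf φ γ A T) -
        Complex.exp (-2 * deriv (partialZeta L A) 0)) =O[atTop] (fun T : ℝ => 1 / T)) ∧
    ∃ δ > 0, ∀ᶠ T : ℝ in atTop, ∀ y : G → ℂ, IsStarkTateFamily Art τ y →
      dist (fun A => Complex.exp (-2 * partialSum Sf φ γ A T)) y ≤ δ →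
      y = fun A => Complex.exp (-2 * deriv (partialZeta L A) 0) := by
  have hfin : ∀ r : ℝ, ({x : G → ℂ | IsStarkTateFamily Art τ x} ∩ Metric.closedBall 0 r).Finite := by
    intro r
    refine (starkUnits_finite Art τ r).subset ?_
    rintro x ⟨⟨ε, h1, h2, h3, h4, -⟩, hx⟩
    exact ⟨⟨ε, h1, h2, h3, h4⟩, hx⟩
  have hne : ({x : G → ℂ | IsStarkTateFamily Art τ x}).Nonempty := ⟨_, trivial_family Art τ⟩
  have hrate := fun A => hL.partial_rate hγ A
  have hlim : Tendsto (fun T : ℝ => fun A => Complex.exp (-2 * partialSum Sf φ γ A T)) atTop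
      (𝓝 fun A => Complex.exp (-2 * deriv (partialZeta L A) 0)) := by
    refine tendsto_pi_nhds.2 fun A => ?_
    exact (Complex.continuous_exp.tendsto _).comp ((tendsto_of_rate (hrate A)).const_mul _)
  refine ⟨closed_tfae (closed_of_finite_balls hfin) hne hlim, fun A => ?_, ?_⟩
  · have h0 := (tendsto_of_rate (hrate A)).const_mul (-2 : ℂ)
    have h1 : (fun z : ℂ => Complex.exp z - Complex.exp (-2 * deriv (partialZeta L A) 0)) =O[
        𝓝 (-2 * deriv (partialZeta L A) 0)] fun z => z - -2 * deriv (partialZeta L A) 0 :=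
      (Complex.hasDerivAt_exp _).isBigO_sub
    have h2 := h1.comp_tendsto h0
    refine h2.trans ?_
    refine ((hrate A).const_mul_left (-2)).congr_left fun T => ?_
    simp only [Function.comp_apply]
    ring
  · obtain ⟨δ, hδ, h⟩ := isolated hfin (fun A => Complex.exp (-2 * deriv (partialZeta L A) 0))
    refine ⟨δ / 2, by positivity, ?_⟩
    filter_upwards [Metric.tendsto_nhds.1 hlim (δ / 2) (by positivity)] with T hT y hy hd
    refine h y hy ?_
    calc dist (fun A => Complex.exp (-2 * deriv (partialZeta L A) 0)) y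
        ≤ dist (fun A => Complex.exp (-2 * deriv (partialZeta L A) 0))
            (fun A => Complex.exp (-2 * partialSum Sf φ γ A T)) +
          dist (fun A => Complex.exp (-2 * partialSum Sf φ γ A T)) y := dist_triangle _ _ _
      _ ≤ δ / 2 + δ / 2 := by
          gcongr
          rw [dist_comm]
          exact hT.le
      _ = δ := by ring

end Pool.Agent.Results.MP_1ef7cf_nt.NearestAbelianFamily
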